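import Pool.Agent.Helper96.AG.Form

/-!
# Exponents which are not prime powers
-/

set_option autoImplicit false

namespace Pool.Agent.Helper96.AG

open Polynomial Finset

lemma dvd_of_dvd_pow {F : Type} [Field F] {r N : ℕ} (hr : (r : F) ≠ 0) {g : F[X]} (hN : N ≠ 0)
    (h : (X ^ r - 1 : F[X]) ∣ g ^ N) : X ^ r - 1 ∣ g := by
  have h1 := (separable_X_pow_sub_C (1 : F) hr one_ne_zero).squarefree
  rw [C_1] at h1
  exact (h1.dvd_pow_iff_dvd hN).1 h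

/-- the congruence modulo a divisor of `n` -/
lemma star_map {n d r : ℕ} (hd : d ∣ n)
    (h : (X ^ r - 1 : (ZMod n)[X]) ∣ (X - 1) ^ n - (X ^ n - 1)) :
    (X ^ r - 1 : (ZMod d)[X]) ∣ (X - 1) ^ n - (X ^ n - 1) := by
  have h1 := _root_.map_dvd (mapRingHom (ZMod.castHom hd (ZMod d))) h
  simpa using h1

lemma star_prime {p : ℕ} [hp : Fact p.Prime] {n r a m : ℕ} (hn : n = p ^ a * m)
    (hr : (r : ZMod p) ≠ 0)
    (h : (X ^ r - 1 : (ZMod p)[X]) ∣ (X - 1) ^ n - (X ^ n - 1)) :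
    (X ^ r - 1 : (ZMod p)[X]) ∣ (X - 1) ^ m - (X ^ m - 1) := by
  apply dvd_of_dvd_pow hr (pow_ne_zero a hp.out.ne_zero)
  have h1 : (((X : (ZMod p)[X]) - 1) ^ m - (X ^ m - 1)) ^ p ^ a = (X - 1) ^ n - (X ^ n - 1) := by
    rw [sub_pow_expChar_pow, sub_pow_expChar_pow, one_pow, ← pow_mul, ← pow_mul, hn,
      Nat.mul_comm (p ^ a) m]
  rw [h1]
  exact h

theorem main_composite {n r p a m : ℕ} (hp : p.Prime) (hn : n = p ^ a * m) (ha : 1 ≤ a)
    (hpm : ¬ p ∣ m) (hm2 : 2 ≤ m) (hcop : Nat.Coprime n r)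
    (hk3 : 3 * (m / r + 1) < p) (hk2 : 2 * (m / r) + 4 ≤ r) (hmp : m < p ^ 3)
    (h : (X ^ r - 1 : (ZMod n)[X]) ∣ (X - 1) ^ n - (X ^ n - 1)) : n ^ 2 ≡ 1 [MOD r] := by
  have : Fact p.Prime := ⟨hp⟩
  have hpn : p ∣ n := by
    rw [hn]
    exact (dvd_pow_self p (by omega)).mul_right m
  have hpr : ¬ p ∣ r := by
    intro h1
    have h2 := Nat.dvd_gcd hpn h1
    rw [hcop] at h2
    exact hp.one_lt.ne' (Nat.dvd_one.1 h2)
  have hrF : (r : ZMod p) ≠ 0 := fun h1 => hpr ((CharP.cast_eq_zero_iff (ZMod p) p _).1 h1)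
  have hmF : (m : ZMod p) ≠ 0 := fun h1 => hpm ((CharP.cast_eq_zero_iff (ZMod p) p _).1 h1)
  have h1 := star_prime hn hrF (star_map hpn h)
  have hmr : Nat.Coprime m r := by
    rw [hn] at hcop
    exact Nat.Coprime.coprime_mul_left hcop
  obtain ⟨b, x, y, hb1, hbk, hx1, hrx, he⟩ := form hp hrF hmF hm2 hmr hk3 hk2 h1
  have hx2 : x ≤ 2 := by
    by_contra hx
    have h3 : p ^ 3 ≤ p ^ x := Nat.pow_le_pow_right hp.pos (by omega)
    obtain ⟨b', rfl⟩ : ∃ b', b = b' + 1 := ⟨b - 1, by omega⟩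
    have h4 : (b' + 1) * p ^ x = b' * p ^ x + p ^ x := by ring
    have h5 : b' ≤ b' * p ^ x := Nat.le_mul_of_pos_right b' (pow_pos hp.pos x)
    have h6 : 0 < p ^ y := pow_pos hp.pos y
    omega
  have hp2 : p ^ 2 ≡ 1 [MOD r] := by
    have h3 : p ^ x ≡ 1 [MOD r] :=
      ((Nat.modEq_iff_dvd' (Nat.one_le_pow _ _ hp.pos)).2 hrx).symm
    have h4 : x = 1 ∨ x = 2 := by omega
    rcases h4 with rfl | rfl
    · rw [pow_one] at h3
      exact (h3.pow 2)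
    · exact h3
  have hmy : m ≡ p ^ y [MOD r] := by
    have h3 : p ^ x ≡ 1 [MOD r] :=
      ((Nat.modEq_iff_dvd' (Nat.one_le_pow _ _ hp.pos)).2 hrx).symm
    have h4 : m + b ≡ p ^ y + b [MOD r] := by
      rw [he]
      have h5 : b * p ^ x ≡ b * 1 [MOD r] := h3.mul_left b
      rw [Nat.mul_one] at h5
      exact h5.add_left (p ^ y)
    exact Nat.ModEq.add_right_cancel' b h4
  have h3 : n ≡ p ^ (a + y) [MOD r] := by
    rw [hn, pow_add]
    exact hmy.mul_left _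
  calc n ^ 2 ≡ (p ^ (a + y)) ^ 2 [MOD r] := h3.pow 2
    _ = (p ^ 2) ^ (a + y) := by rw [← pow_mul, ← pow_mul, Nat.mul_comm]
    _ ≡ 1 ^ (a + y) [MOD r] := hp2.pow _
    _ = 1 := one_pow _

end Pool.Agent.Helper96.AG
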