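import Pool.Agent.Helper96.AG.Rep

/-!
# Sparse powers of `X - 1`
-/

set_option autoImplicit false

namespace Pool.Agent.Helper96.AG

open Polynomial Finset

variable {F : Type} [Field F]

/-- the coefficients of `(X - 1) ^ b` -/
noncomputable def bt (F : Type) [Field F] (b i : ℕ) : F := (-1) ^ (b - i) * (b.choose i : F)

lemma coeff_pow_sub (b i : ℕ) : ((X - 1 : F[X]) ^ b).coeff i = bt F b i := by
  have : (X - 1 : F[X]) = X + C (-1) := by simp [sub_eq_add_neg]
  rw [this, coeff_X_add_C_pow]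
  rfl

lemma bt_zero {b i : ℕ} (h : b < i) : bt F b i = 0 := by
  unfold bt
  rw [Nat.choose_eq_zero_of_lt h]
  simp

lemma choose_ne {p : ℕ} [CharP F p] (hp : p.Prime) {b i : ℕ} (hb : b < p) (hi : i ≤ b) :
    (b.choose i : F) ≠ 0 := by
  intro h
  have h1 := (CharP.cast_eq_zero_iff F p _).1 h
  have h2 : b.choose i * i.factorial * (b - i).factorial = b.factorial :=
    Nat.choose_mul_factorial_mul_factorial hi
  have h3 : p ∣ b.factorial := by
    rw [← h2, mul_assoc]
    exact h1.mul_right _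
  have := (hp.dvd_factorial).1 h3
  omega

lemma bt_ne {p : ℕ} [CharP F p] (hp : p.Prime) {b i : ℕ} (hb : b < p) (hi : i ≤ b) :
    bt F b i ≠ 0 := by
  unfold bt
  exact mul_ne_zero (pow_ne_zero _ (by simp)) (choose_ne hp hb hi)

/-- the coefficients of `(X - 1) ^ b * (ε (X ^ σ - 1))` -/
lemma coeff_D (ε : F) (b σ j : ℕ) : ((X - 1 : F[X]) ^ b * (C ε * (X ^ σ - 1))).coeff j =
    ε * ((if σ ≤ j then bt F b (j - σ) else 0) - bt F b j) := by
  have h1 : (X - 1 : F[X]) ^ b * (C ε * (X ^ σ - 1)) =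
      C ε * ((X - 1) ^ b * X ^ σ - (X - 1) ^ b) := by ring
  rw [h1, coeff_C_mul, coeff_sub, coeff_mul_X_pow', coeff_pow_sub, coeff_pow_sub]

/-- two consecutive coefficients are not both zero -/
lemma no_gap {p : ℕ} [CharP F p] (hp : p.Prime) {ε : F} (hε : ε ≠ 0) {b σ : ℕ} (hb : b + 1 < p)
    (hσ : (σ : F) ≠ 0) (hσb : σ ≤ b) {j : ℕ} (hj : j < b + σ)
    (h0 : ((X - 1 : F[X]) ^ b * (C ε * (X ^ σ - 1))).coeff j = 0) :
    ((X - 1 : F[X]) ^ b * (C ε * (X ^ σ - 1))).coeff (j + 1) ≠ 0 := by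
  rw [coeff_D] at h0 ⊢
  have h0' := (mul_eq_zero.1 h0).resolve_left hε
  refine mul_ne_zero hε fun h1 => ?_
  by_cases h2 : σ ≤ j
  · rw [if_pos h2, sub_eq_zero] at h0'
    rw [if_pos (by omega), sub_eq_zero] at h1
    by_cases h3 : j < b
    · -- both binomial coefficients
      unfold bt at h0' h1
      have e1 : ((b.choose (j + 1) : ℕ) : F) * ((j : F) + 1) = (b.choose j : F) * ((b : F) - j) := by
        have := Nat.choose_succ_right_eq b j
        have h4 := congrArg (Nat.cast : ℕ → F) this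
        push_cast [Nat.cast_sub h3.le] at h4
        exact h4
      have e2 : ((b.choose (j + 1 - σ) : ℕ) : F) * ((j : F) + 1 - σ) =
          (b.choose (j - σ) : F) * ((b : F) - (j - σ)) := by
        have := Nat.choose_succ_right_eq b (j - σ)
        have h4 := congrArg (Nat.cast : ℕ → F) this
        rw [show j - σ + 1 = j + 1 - σ by omega] at h4
        push_cast [Nat.cast_sub h2, Nat.cast_sub (show j - σ ≤ b by omega),
          Nat.cast_sub (show σ ≤ j + 1 by omega)] at h4
        exact h4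
      have s1 : ((-1 : F)) ^ (b - (j - σ)) = (-1) ^ (b - j) * (-1) ^ σ := by
        rw [← pow_add]
        congr 1
        omega
      have s2 : ((-1 : F)) ^ (b - (j + 1 - σ)) = (-1) ^ (b - (j + 1)) * (-1) ^ σ := by
        rw [← pow_add]
        congr 1
        omega
      have u1 : ((-1 : F)) ^ (b - j) ≠ 0 := pow_ne_zero _ (by simp)
      have u2 : ((-1 : F)) ^ (b - (j + 1)) ≠ 0 := pow_ne_zero _ (by simp)
      rw [s1, mul_assoc] at h0'
      rw [s2, mul_assoc] at h1
      have f1 := mul_left_cancel₀ u1 h0'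
      have f2 := mul_left_cancel₀ u2 h1
      have u3 : ((-1 : F)) ^ σ ≠ 0 := pow_ne_zero _ (by simp)
      rw [← f1, ← f2] at e1
      have e3 : ((b.choose (j + 1 - σ) : ℕ) : F) * ((j : F) + 1) =
          (b.choose (j - σ) : F) * ((b : F) - j) := by
        apply mul_left_cancel₀ u3
        linear_combination e1
      have e4 : (σ : F) * (((b.choose (j + 1 - σ) : ℕ) : F) + (b.choose (j - σ) : F)) = 0 := by
        linear_combination e3 - e2
      have e5 := (mul_eq_zero.1 e4).resolve_left hσ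
      have e6 : ((b.choose (j - σ) : ℕ) : F) * ((b + 1 : ℕ) : F) = 0 := by
        push_cast
        linear_combination -e3 + ((j : F) + 1) * e5
      rcases mul_eq_zero.1 e6 with e7 | e7
      · exact choose_ne hp (by omega) (by omega) e7
      · have := (CharP.cast_eq_zero_iff F p _).1 e7
        have := Nat.le_of_dvd (by omega) this
        omega
    · rw [bt_zero (show b < j + 1 by omega)] at h1
      exact bt_ne hp (by omega) (show j + 1 - σ ≤ b by omega) h1
  · rw [if_neg h2, zero_sub, neg_eq_zero] at h0'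
    exact bt_ne hp (by omega) (show j ≤ b by omega) h0'

/-- the exponents are in arithmetic progression modulo `p` -/
lemma prog {p r : ℕ} [CharP F p] (hr : (r : F) ≠ 0) {w : ℕ → ℕ} {t : F} {δ : ℤ}
    (hδ : (r : F) * δ = -1) {j j' : ℕ}
    (hj : ((j + r * w j : ℕ) : F) = t) (hj' : ((j' + r * w j' : ℕ) : F) = t)
    (hlt : |((w j' : ℤ) - w j) - ((j' : ℤ) - j) * δ| < p) :
    ((w j' : ℤ) - w j) = ((j' : ℤ) - j) * δ := by
  have h1 : (r : F) * ((((w j' : ℤ) - w j) - ((j' : ℤ) - j) * δ : ℤ) : F) = 0 := by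
    push_cast at hj hj' ⊢
    linear_combination hj' - hj - ((j' : F) - j) * hδ
  have h2 := (mul_eq_zero.1 h1).resolve_left hr
  have h3 := (CharP.intCast_eq_zero_iff F p _).1 h2
  have h4 := Int.eq_zero_of_abs_lt_dvd h3 hlt
  linarith

end Pool.Agent.Helper96.AG
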