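import Pool.Agent.Helper96.AG.Cases

/-!
# The structure of the solutions
-/

set_option autoImplicit false

namespace Pool.Agent.Helper96.AG

open Polynomial Finset

variable {F : Type} [Field F]

lemma pow_N (N b : ℕ) : ((X : F[X]) ^ N - 1) ^ b =
    ∑ j ∈ range (b + 1), C (bt F b j) * X ^ (N * j) := by
  have h1 : ((X : F[X]) ^ N - 1) ^ b = (X ^ N + (-1)) ^ b := by ring
  rw [h1, add_pow]
  refine Finset.sum_congr rfl fun w _ => ?_
  rw [← pow_mul]
  unfold bt
  simp only [C_mul, C_pow, C_neg, C_1, map_natCast]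
  ring

/-- the data given by `rep_expo` for `D = (X - 1) ^ b * (ε (X ^ σ - 1))` -/
structure Dat (F : Type) [Field F] (r σ K t b : ℕ) (ε : F) (P D : F[X]) (w : ℕ → ℕ) : Prop where
  le : ∀ j, w j ≤ K
  cong : ∀ j ∈ D.support, ((j + r * w j : ℕ) : F) = t
  conv : ∀ j u, j < r → u ≤ K → P.coeff (j + r * u) ≠ 0 → j ∈ D.support ∧ u = w j
  sum : P = ∑ j ∈ D.support, C (D.coeff j) * X ^ (j + r * w j)
  eq : D = (X - 1) ^ b * (C ε * (X ^ σ - 1))

lemma natDegree_D {b σ : ℕ} {ε : F} :
    ((X - 1 : F[X]) ^ b * (C ε * (X ^ σ - 1))).natDegree ≤ b + σ := by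
  refine natDegree_mul_le.trans ?_
  have h1 : ((X - 1 : F[X]) ^ b).natDegree ≤ b := by
    refine natDegree_pow_le.trans ?_
    have := natDegree_X_sub_one_le (F := F)
    calc b * (X - 1 : F[X]).natDegree ≤ b * 1 := Nat.mul_le_mul_left b this
      _ = b := mul_one b
  have h2 : (C ε * (X ^ σ - 1) : F[X]).natDegree ≤ σ := by
    refine (natDegree_C_mul_le _ _).trans ((natDegree_sub_le _ _).trans (max_le ?_ ?_))
    · rw [natDegree_X_pow]
    · simp
  omega

/-- the case of two separate blocks -/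
lemma split_case {r σ b : ℕ} {ε : F} {D : F[X]} {w : ℕ → ℕ} {d : ℕ}
    (hD : D = (X - 1) ^ b * (C ε * (X ^ σ - 1))) (hσb : b < σ)
    (h1 : ∀ j ≤ b, w j = w 0 + j * d) (h2 : ∀ j ≤ b, w (σ + j) = w σ + j * d) :
    ∑ j ∈ D.support, C (D.coeff j) * X ^ (j + r * w j) =
      C ε * (X ^ (σ + r * w σ) - X ^ (r * w 0)) * (X ^ (1 + r * d) - 1) ^ b := by
  have e1 : ∑ j ∈ D.support, C (D.coeff j) * (X : F[X]) ^ (j + r * w j) =
      ∑ j ∈ range (σ + (b + 1)), C (D.coeff j) * X ^ (j + r * w j) := by
    refine Finset.sum_subset ?_ ?_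
    · intro j hj
      have h3 := le_natDegree_of_mem_supp j hj
      have h4 := natDegree_D (F := F) (b := b) (σ := σ) (ε := ε)
      rw [← hD] at h4
      exact Finset.mem_range.2 (by omega)
    · intro j _ hj
      rw [notMem_support_iff.1 hj]
      simp
  rw [e1, Finset.sum_range_add]
  have e2 : ∑ j ∈ range σ, C (D.coeff j) * (X : F[X]) ^ (j + r * w j) =
      ∑ j ∈ range (b + 1), C (D.coeff j) * X ^ (j + r * w j) := by
    symm
    refine Finset.sum_subset (Finset.range_subset_range.2 (by omega)) fun j hj hj2 => ?_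
    have h3 : j < σ := Finset.mem_range.1 hj
    have h4 : b < j := by
      by_contra h
      exact hj2 (Finset.mem_range.2 (by omega))
    rw [hD, coeff_D, if_neg (by omega), bt_zero h4]
    simp
  rw [e2, pow_N]
  have e3 : ∀ j ∈ range (b + 1), C (D.coeff j) * (X : F[X]) ^ (j + r * w j) =
      -(C ε * X ^ (r * w 0) * (C (bt F b j) * X ^ ((1 + r * d) * j))) := by
    intro j hj
    have hj' : j ≤ b := by have := Finset.mem_range.1 hj; omega
    rw [hD, coeff_D, if_neg (by omega), h1 j hj',
      show j + r * (w 0 + j * d) = r * w 0 + (1 + r * d) * j by ring, pow_add]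
    simp only [zero_sub, mul_neg, C_neg, C_mul]
    ring
  have e4 : ∀ j ∈ range (b + 1), C (D.coeff (σ + j)) * (X : F[X]) ^ (σ + j + r * w (σ + j)) =
      C ε * X ^ (σ + r * w σ) * (C (bt F b j) * X ^ ((1 + r * d) * j)) := by
    intro j hj
    have hj' : j ≤ b := by have := Finset.mem_range.1 hj; omega
    rw [hD, coeff_D, if_pos (by omega), bt_zero (show b < σ + j by omega), h2 j hj',
      show σ + j + r * (w σ + j * d) = (σ + r * w σ) + (1 + r * d) * j by ring, pow_add,
      show σ + j - σ = j by omega]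
    simp only [sub_zero, C_mul]
    ring
  rw [Finset.sum_congr rfl e3, Finset.sum_congr rfl e4, Finset.sum_neg_distrib,
    ← Finset.mul_sum, ← Finset.mul_sum]
  ring

/-- the case of one block -/
lemma merge_case {r σ b : ℕ} {D : F[X]} {w : ℕ → ℕ} {d : ℕ}
    (hD : D = (X - 1) ^ b * (C 1 * (X ^ σ - 1)))
    (h1 : ∀ j ∈ D.support, w j = j * d) :
    ∑ j ∈ D.support, C (D.coeff j) * X ^ (j + r * w j) =
      (X ^ ((1 + r * d) * σ) - 1) * (X ^ (1 + r * d) - 1) ^ b := by
  have e1 : ∑ j ∈ D.support, C (D.coeff j) * (X : F[X]) ^ (j + r * w j) =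
      D.comp (X ^ (1 + r * d)) := by
    rw [comp_eq_sum_left, Polynomial.sum]
    refine Finset.sum_congr rfl fun j hj => ?_
    rw [h1 j hj, ← pow_mul]
    congr 2
    ring
  rw [e1, hD]
  simp only [C_1, one_mul, mul_comp, pow_comp, sub_comp, X_comp, one_comp]
  rw [← pow_mul]
  ring

/-- nonzero low coefficients -/
lemma coeff_low_ne {p : ℕ} [CharP F p] (hp : p.Prime) {ε : F} (hε : ε ≠ 0) {b σ j : ℕ} (hb : b < p)
    (hj : j ≤ b) (hjσ : j < σ) :
    ((X - 1 : F[X]) ^ b * (C ε * (X ^ σ - 1))).coeff j ≠ 0 := by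
  rw [coeff_D, if_neg (by omega), zero_sub]
  exact mul_ne_zero hε (neg_ne_zero.2 (bt_ne hp hb hj))

/-- nonzero high coefficients -/
lemma coeff_high_ne {p : ℕ} [CharP F p] (hp : p.Prime) {ε : F} (hε : ε ≠ 0) {b σ j : ℕ} (hb : b < p)
    (hj : j ≤ b) (hbσ : b < σ + j) :
    ((X - 1 : F[X]) ^ b * (C ε * (X ^ σ - 1))).coeff (σ + j) ≠ 0 := by
  rw [coeff_D, if_pos (by omega), bt_zero hbσ, sub_zero, show σ + j - σ = j by omega]
  exact mul_ne_zero hε (bt_ne hp hb hj)

lemma coeff_one_ne {p : ℕ} [CharP F p] (hp : p.Prime) {ε : F} (hε : ε ≠ 0) {b σ : ℕ} (hb : b + 1 < p)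
    (hb1 : 1 ≤ b) (hσ : 1 ≤ σ) :
    ((X - 1 : F[X]) ^ b * (C ε * (X ^ σ - 1))).coeff 1 ≠ 0 := by
  rcases Nat.lt_or_ge 1 σ with h | h
  · exact coeff_low_ne hp hε (by omega) hb1 h
  · have h1 : σ = 1 := by omega
    subst h1
    rw [coeff_D, if_pos le_rfl, Nat.sub_self]
    refine mul_ne_zero hε ?_
    unfold bt
    have h2 : ((-1 : F)) ^ (b - 0) = (-1) ^ (b - 1) * (-1) := by
      rw [← pow_succ]
      congr 1
      omega
    rw [h2, Nat.choose_zero_right, Nat.choose_one_right]
    have h3 : ((-1 : F)) ^ (b - 1) * (-1) * ((1 : ℕ) : F) - (-1) ^ (b - 1) * (b : F) =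
        (-1) ^ b * ((b + 1 : ℕ) : F) := by
      have h4 : ((-1 : F)) ^ b = (-1) ^ (b - 1) * (-1) := by
        rw [← pow_succ]
        congr 1
        omega
      rw [h4]
      push_cast
      ring
    rw [h3]
    refine mul_ne_zero (pow_ne_zero _ (by simp)) fun h5 => ?_
    have := Nat.le_of_dvd (by omega) ((CharP.cast_eq_zero_iff F p _).1 h5)
    omega

/-- the exponents in the interior of a block -/
lemma block {p r K : ℕ} [CharP F p] (hr : (r : F) ≠ 0) (h3 : 3 * K < p) {w : ℕ → ℕ} {t : F}
    {d : ℕ} (hd : (r : F) * d = -1) (hw : ∀ j, w j ≤ K) (hdK : d ≤ K) {lo b : ℕ}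
    (hc : ∀ j ≤ b, ((lo + j + r * w (lo + j) : ℕ) : F) = t) :
    ∀ j ≤ b, w (lo + j) = w lo + j * d := by
  intro j
  induction j with
  | zero => intro _; simp
  | succ j ih =>
    intro hj
    have h1 := ih (by omega)
    have h2 := prog (F := F) (p := p) (r := r) (w := w) (t := t) (δ := (d : ℤ)) (j := lo + j)
      (j' := lo + (j + 1)) hr (by push_cast; exact hd) (hc j (by omega)) (hc (j + 1) hj) (by
        have e1 : (((lo + (j + 1) : ℕ) : ℤ) - ((lo + j : ℕ) : ℤ)) * (d : ℤ) = d := by
          push_cast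
          ring
        rw [e1, abs_lt]
        have := hw (lo + j)
        have := hw (lo + (j + 1))
        constructor <;> omega)
    have e1 : (((lo + (j + 1) : ℕ) : ℤ) - ((lo + j : ℕ) : ℤ)) * (d : ℤ) = d := by
      push_cast
      ring
    rw [e1] at h2
    have e2 : (j + 1) * d = j * d + d := by ring
    omega

/-- the exponents when there are no gaps -/
lemma no_gap_prog {p r K b σ : ℕ} [CharP F p] (hp : p.Prime) (hr : (r : F) ≠ 0) {ε : F} (hε : ε ≠ 0)
    (h3 : 3 * K < p) (hb : b + 1 < p) (hσ : (σ : F) ≠ 0) (hσb : σ ≤ b) {w : ℕ → ℕ} {t : F}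
    {δ : ℤ} (hδ : (r : F) * δ = -1) (hw : ∀ j, w j ≤ K) (hd1 : -(K : ℤ) ≤ δ) (hd2 : δ ≤ K)
    (hc : ∀ j ∈ ((X - 1 : F[X]) ^ b * (C ε * (X ^ σ - 1))).support, ((j + r * w j : ℕ) : F) = t)
    (h0 : 0 ∈ ((X - 1 : F[X]) ^ b * (C ε * (X ^ σ - 1))).support) (j : ℕ) :
    j ∈ ((X - 1 : F[X]) ^ b * (C ε * (X ^ σ - 1))).support → (w j : ℤ) = w 0 + j * δ := by
  induction j using Nat.strong_induction_on with
  | _ j ih =>
    intro hj
    rcases Nat.eq_zero_or_pos j with h | h
    · subst h; simp
    · by_cases h1 : j - 1 ∈ ((X - 1 : F[X]) ^ b * (C ε * (X ^ σ - 1))).support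
      · have h2 := ih (j - 1) (by omega) h1
        have e1 : ((j : ℤ) - ((j - 1 : ℕ) : ℤ)) * δ = δ := by
          push_cast [Nat.cast_sub (show 1 ≤ j by omega)]
          ring
        have h4 := prog (F := F) (p := p) hr hδ (hc _ h1) (hc _ hj) (by
          rw [e1, abs_lt]
          have := hw j
          have := hw (j - 1)
          constructor <;> omega)
        rw [e1] at h4
        have e2 : ((j - 1 : ℕ) : ℤ) * δ = j * δ - δ := by
          push_cast [Nat.cast_sub (show 1 ≤ j by omega)]
          ring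
        rw [e2] at h2
        linarith
      · have hj2 : 2 ≤ j := by
          by_contra hcon
          have : j = 1 := by omega
          subst this
          exact h1 h0
        have hjle : j ≤ b + σ := by
          have h5 := le_natDegree_of_mem_supp j hj
          have h6 := natDegree_D (F := F) (b := b) (σ := σ) (ε := ε)
          omega
        have h2 : j - 2 ∈ ((X - 1 : F[X]) ^ b * (C ε * (X ^ σ - 1))).support := by
          rw [mem_support_iff]
          intro h5
          have h6 := no_gap hp hε hb hσ hσb (j := j - 2) (by omega) h5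
          rw [show j - 2 + 1 = j - 1 by omega] at h6
          exact h1 (mem_support_iff.2 h6)
        have h3' := ih (j - 2) (by omega) h2
        have e1 : ((j : ℤ) - ((j - 2 : ℕ) : ℤ)) * δ = 2 * δ := by
          push_cast [Nat.cast_sub hj2]
          ring
        have h4 := prog (F := F) (p := p) hr hδ (hc _ h2) (hc _ hj) (by
          rw [e1, abs_lt]
          have := hw j
          have := hw (j - 2)
          constructor <;> omega)
        rw [e1] at h4
        have e2 : ((j - 2 : ℕ) : ℤ) * δ = j * δ - 2 * δ := by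
          push_cast [Nat.cast_sub hj2]
          ring
        rw [e2] at h3'
        linarith

/-- the structure theorem -/
theorem core {p r σ K t m : ℕ} [CharP F p] (hp : p.Prime) (hr : (r : F) ≠ 0) {ε : F}
    (ht : (t = 0 ∧ ε = 1) ∨ (t = σ ∧ ε = -1))
    (hσ : (σ : F) ≠ 0) (hK : σ + K + 2 ≤ r) (h3 : 3 * K < p) (hm : (m : F) ≠ 0) (hm2 : 2 ≤ m)
    (h0 : Th F r ∣ X ^ t * (X - 1) ^ m - C ε * (X ^ σ - 1))
    (hdeg : t + m ≤ K * r + σ) :
    ∃ b S N : ℕ, 1 ≤ b ∧ b ≤ K ∧ 1 ≤ S ∧ 1 < N ∧ r ∣ N - 1 ∧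
      (X - 1 : F[X]) ^ (m + b) = (X ^ S - 1) * (X ^ N - 1) ^ b := by
  have hσ1 : 1 ≤ σ := by
    by_contra h
    have : σ = 0 := by omega
    subst this
    exact hσ (by simp)
  have hε : ε ≠ 0 := by
    rcases ht with ⟨_, h⟩ | ⟨_, h⟩ <;> rw [h] <;> simp
  have hc : (C ε * (X ^ σ - 1) : F[X]).natDegree ≤ σ := by
    refine (natDegree_C_mul_le _ _).trans ((natDegree_sub_le _ _).trans (max_le ?_ ?_))
    · rw [natDegree_X_pow]
    · simp
  have hj : ∀ i < K, ((i + 1 : ℕ) : F) ≠ 0 := by
    intro i hi h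
    have := Nat.le_of_dvd (by omega) ((CharP.cast_eq_zero_iff F p _).1 h)
    omega
  obtain ⟨a, ha⟩ := rep_start hr h0 hc hdeg hK hj
  obtain ⟨ρ, M, hρlt, hM, hMp⟩ : ∃ ρ M, ρ < p ∧ m + K = M + ρ ∧ p ∣ M :=
    ⟨(m + K) % p, p * ((m + K) / p), Nat.mod_lt _ hp.pos, (Nat.div_add_mod _ _).symm,
      dvd_mul_right _ _⟩
  have hMF : (M : F) = 0 := (CharP.cast_eq_zero_iff F p _).2 hMp
  rw [hM] at ha
  obtain ⟨a', D, hD, eD⟩ := rep_down hK ρ ha (by
    intro i hi1 hi2 h
    have h1 := (CharP.cast_eq_zero_iff F p _).1 h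
    have h2 : p ∣ i - M := Nat.dvd_sub h1 hMp
    have := Nat.le_of_dvd (by omega) h2
    omega)
  obtain ⟨w, hw, hcong, hcoef, hconv, hsum⟩ := rep_expo hr hK (by omega) hD hMF
  by_cases hρK : ρ ≤ K
  · -- main case
    obtain ⟨b, hb⟩ : ∃ b, K = ρ + b := ⟨K - ρ, by omega⟩
    have hDeq : D = (X - 1) ^ b * (C ε * (X ^ σ - 1)) := by
      have h1 : (X - 1 : F[X]) ^ ρ * D = (X - 1) ^ ρ * ((X - 1) ^ b * (C ε * (X ^ σ - 1))) := by
        rw [← eD, ← mul_assoc ((X - 1 : F[X]) ^ ρ), ← pow_add, ← hb]
      exact mul_left_cancel₀ (pow_ne_zero _ X_sub_one_ne) h1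
    have hMb : M = m + b := by omega
    have hb1 : 1 ≤ b := by
      by_contra h
      apply hm
      rw [show m = M by omega]
      exact hMF
    have hbK : b ≤ K := by omega
    have hbp : b + 1 < p := by omega
    have htr : t < r := by
      rcases ht with ⟨h, _⟩ | ⟨h, _⟩ <;> omega
    have htc : ((X : F[X]) ^ t * (X - 1) ^ M).coeff (t + r * 0) ≠ 0 := by
      rw [Nat.mul_zero, Nat.add_zero, mul_comm, coeff_mul_X_pow', if_pos le_rfl, Nat.sub_self,
        coeff_pow_sub]
      simp [bt]
    obtain ⟨htD, hwt⟩ := hconv t 0 htr (Nat.zero_le _) htc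
    have h0D : (0 : ℕ) ∈ D.support := by
      rw [hDeq]
      exact mem_support_iff.2 (coeff_low_ne hp hε (by omega) (Nat.zero_le _) hσ1)
    have h1D : 1 ∈ D.support := by
      rw [hDeq]
      exact mem_support_iff.2 (coeff_one_ne hp hε hbp hb1 hσ1)
    have hδ : (r : F) * (((w 1 : ℤ) - (w 0 : ℤ) : ℤ) : F) = -1 := by
      have e0 := hcong 0 h0D
      have e1 := hcong 1 h1D
      push_cast at e0 e1 ⊢
      linear_combination e1 - e0
    have hw0 := hw 0
    have hw1 := hw 1
    rcases Nat.lt_or_ge b σ with hbσ | hσb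
    · -- two blocks
      have hσD : ∀ j ≤ b, σ + j ∈ D.support := by
        intro j hj'
        rw [hDeq]
        exact mem_support_iff.2 (coeff_high_ne hp hε (by omega) hj' (by omega))
      have hlD : ∀ j ≤ b, 0 + j ∈ D.support := by
        intro j hj'
        rw [hDeq, Nat.zero_add]
        exact mem_support_iff.2 (coeff_low_ne hp hε (by omega) hj' (by omega))
      obtain ⟨d, hd⟩ : ∃ d : ℕ, (w 1 : ℤ) - w 0 = d := by
        rcases ht with ⟨h, _⟩ | ⟨h, _⟩
        · subst h
          exact ⟨w 1, by rw [← hwt]; simp⟩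
        · subst h
          have h4 := prog (F := F) (p := p) (j := t) (j' := t + 1) hr hδ (hcong _ htD)
            (hcong _ (hσD 1 hb1)) (by
              have := hw t
              have := hw (t + 1)
              rw [abs_lt]
              push_cast
              constructor <;> omega)
          refine ⟨w (t + 1), ?_⟩
          push_cast at h4
          omega
      rw [hd] at hδ
      have hδ' : (r : F) * (d : F) = -1 := by
        push_cast at hδ
        exact hδ
      have hd1 : 1 ≤ d := by
        by_contra h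
        have : d = 0 := by omega
        subst this
        simp at hδ'
      have low := block (F := F) (p := p) (t := (t : F)) hr h3 hδ' hw (by omega) (lo := 0) (b := b)
        fun j hj' => hcong _ (hlD j hj')
      have high := block (F := F) (p := p) (t := (t : F)) hr h3 hδ' hw (by omega) (lo := σ) (b := b)
        fun j hj' => hcong _ (hσD j hj')
      simp only [Nat.zero_add] at low
      rw [split_case hDeq hbσ low high, hMb] at hsum
      rcases ht with ⟨h, h'⟩ | ⟨h, h'⟩
      · subst h
        refine ⟨b, σ + r * w σ, 1 + r * d, hb1, hbK, by omega, ?_, ⟨d, by omega⟩, ?_⟩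
        · have : 1 ≤ r * d := Nat.mul_pos (by omega) hd1
          omega
        · rw [← hwt, h', C_1, Nat.mul_zero, pow_zero, one_mul, one_mul] at hsum
          exact hsum
      · subst h
        rw [← hwt, h', Nat.mul_zero, Nat.add_zero, C_neg, C_1] at hsum
        have hw01 : 1 ≤ w 0 := by
          by_contra h
          have hw00 : w 0 = 0 := by omega
          rw [hw00] at hsum
          have h5 := congrArg (eval 0) hsum
          simp only [eval_mul, eval_pow, eval_X, eval_sub, eval_one, eval_neg, Nat.mul_zero,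
            pow_zero, zero_pow (show t ≠ 0 by omega), zero_pow (show 1 + r * d ≠ 0 by omega),
            zero_mul, zero_sub] at h5
          have h6 : ((-1 : F)) ^ b = 0 := by linear_combination -h5
          exact pow_ne_zero b (by simp) h6
        have hrw : r ≤ r * w 0 := Nat.le_mul_of_pos_right r hw01
        refine ⟨b, r * w 0 - t, 1 + r * d, hb1, hbK, by omega, ?_, ⟨d, by omega⟩, ?_⟩
        · have : 1 ≤ r * d := Nat.mul_pos (by omega) hd1
          omega
        · have h5 : (X : F[X]) ^ (r * w 0) = X ^ t * X ^ (r * w 0 - t) := by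
            rw [← pow_add]
            congr 1
            omega
          apply mul_left_cancel₀ (pow_ne_zero t (X_ne_zero (R := F)))
          rw [hsum, h5]
          ring
    · -- one block
      have hpr := no_gap_prog hp hr hε h3 hbp hσ hσb hδ hw (by omega) (by omega)
        (fun j hj' => hcong j (by rw [hDeq]; exact hj')) (by rw [← hDeq]; exact h0D)
      rw [← hDeq] at hpr
      rcases ht with ⟨h, h'⟩ | ⟨h, h'⟩
      · subst h
        have hwj : ∀ j ∈ D.support, w j = j * w 1 := by
          intro j hj'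
          have h4 := hpr j hj'
          rw [← hwt] at h4
          have : ((w j : ℕ) : ℤ) = ((j * w 1 : ℕ) : ℤ) := by
            push_cast at h4 ⊢
            linarith
          exact_mod_cast this
        have hd1 : 1 ≤ w 1 := by
          by_contra h
          have h5 : w 1 = 0 := by omega
          rw [← hwt, h5] at hδ
          simp at hδ
        rw [h'] at hDeq
        rw [merge_case hDeq hwj, hMb, pow_zero, one_mul] at hsum
        refine ⟨b, (1 + r * w 1) * σ, 1 + r * w 1, hb1, hbK, Nat.mul_pos (by omega) hσ1, ?_,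
          ⟨w 1, by omega⟩, hsum⟩
        have : 1 ≤ r * w 1 := Nat.mul_pos (by omega) hd1
        omega
      · exfalso
        subst h
        have htop : t + b ∈ D.support := by
          rw [hDeq]
          exact mem_support_iff.2 (coeff_high_ne hp hε (by omega) le_rfl (by omega))
        have h4 := hpr t htD
        have h5 := hpr (t + b) htop
        rw [← hwt] at h4
        set δ := (w 1 : ℤ) - w 0 with hδdef
        have h6 : (b : ℤ) * δ = w (t + b) := by
          push_cast at h4 h5
          linarith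
        have h7 : 0 ≤ δ := by
          by_contra hneg
          have : (b : ℤ) * δ < 0 := mul_neg_of_pos_of_neg (by omega) (by omega)
          omega
        have h8 : δ ≤ 0 := by
          by_contra hneg
          have : 0 < (t : ℤ) * δ := mul_pos (by omega) (by omega)
          push_cast at h4
          omega
        have h9 : δ = 0 := le_antisymm h8 h7
        rw [h9] at hδ
        simp at hδ
  · -- impossible
    exfalso
    obtain ⟨e, he⟩ : ∃ e, ρ = K + (1 + e) := ⟨ρ - K - 1, by omega⟩
    have h1 : C ε * Th F σ = (X - 1) ^ e * D := by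
      have h2 : (X - 1 : F[X]) ^ (K + 1) * (C ε * Th F σ) =
          (X - 1) ^ (K + 1) * ((X - 1) ^ e * D) := by
        have h4 := Th_mul (F := F) σ
        rw [he, ← h4] at eD
        rw [pow_succ, mul_assoc]
        calc (X - 1 : F[X]) ^ K * ((X - 1) * (C ε * Th F σ)) =
            (X - 1) ^ K * (C ε * ((X - 1) * Th F σ)) := by ring
          _ = (X - 1) ^ (K + (1 + e)) * D := eD
          _ = _ := by rw [pow_add, pow_add]; ring
      exact mul_left_cancel₀ (pow_ne_zero _ X_sub_one_ne) h2
    have h2 := congrArg (eval 1) h1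
    have h4 : eval 1 (Th F σ) = (σ : F) := by
      unfold Th
      rw [eval_finsetSum]
      simp
    rw [eval_mul, eval_C, h4, eval_mul, eval_pow, eval_sub, eval_X, eval_one, sub_self] at h2
    have h5 : eval 1 D = 0 ^ M := by
      have h6 := congrArg (eval 1) hsum
      rw [eval_mul, eval_pow, eval_pow, eval_sub, eval_X, eval_one, sub_self, one_pow, one_mul,
        eval_finsetSum] at h6
      rw [h6, eval_eq_sum, Polynomial.sum]
      refine Finset.sum_congr rfl fun j _ => ?_
      simp
    have hεσ : ε * (σ : F) ≠ 0 := mul_ne_zero hε hσ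
    rcases Nat.eq_zero_or_pos e with he0 | he0
    · subst he0
      rcases Nat.eq_zero_or_pos M with hM0 | hM0
      · omega
      · rw [h5, zero_pow (by omega : M ≠ 0), mul_zero] at h2
        exact hεσ h2
    · rw [zero_pow (by omega : e ≠ 0), zero_mul] at h2
      exact hεσ h2

end Pool.Agent.Helper96.AG
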