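import Mathlib

/-!
# Digits of a power of `X - 1` in base `1 + X + ... + X^(r-1)`
-/

set_option autoImplicit false

namespace Pool.Agent.Helper96.AG

open Polynomial Finset

variable {F : Type} [Field F]

/-- `1 + X + ... + X^(r-1)` -/
noncomputable def Th (F : Type) [Field F] (r : ℕ) : F[X] := ∑ i ∈ range r, X ^ i

lemma Th_mul (r : ℕ) : (X - 1) * Th F r = X ^ r - 1 := mul_geom_sum X r

lemma Th_deriv (r : ℕ) : X * (X - 1) * derivative (Th F r) =
    C (r : F) + (C (r : F) * (X - 1) - X) * Th F r := by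
  have h1 := congrArg derivative (Th_mul (F := F) r)
  rw [derivative_mul, derivative_sub, derivative_sub, derivative_X, derivative_one,
    derivative_X_pow, sub_zero, sub_zero, one_mul] at h1
  have h2 : X * (C (r : F) * X ^ (r - 1)) = C (r : F) * X ^ r := by
    rcases Nat.eq_zero_or_pos r with h | h
    · subst h
      simp
    · obtain ⟨r, rfl⟩ := Nat.exists_eq_succ_of_ne_zero h.ne'
      rw [Nat.succ_sub_one, pow_succ]
      ring
  have h3 := Th_mul (F := F) r
  linear_combination X * h1 + h2 - C (r : F) * h3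

lemma Th_ne {r : ℕ} (hr : (r : F) ≠ 0) : Th F r ≠ 0 := by
  intro h
  have := Th_deriv (F := F) r
  rw [h, derivative_zero, mul_zero, mul_zero, add_zero] at this
  exact hr (C_eq_zero.1 this.symm)

lemma Th_natDegree {r : ℕ} (hr : 0 < r) : (Th F r).natDegree = r - 1 := by
  have h1 : ((X - 1 : F[X]) * Th F r).natDegree = r := by
    rw [Th_mul]
    have : (X ^ r - 1 : F[X]) = X ^ r - C 1 := by simp
    rw [this, natDegree_X_pow_sub_C]
  have hX : (X - 1 : F[X]) ≠ 0 := by
    have : (X - 1 : F[X]) = X - C 1 := by simp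
    rw [this]
    exact X_sub_C_ne_zero 1
  have hT : Th F r ≠ 0 := by
    intro h
    rw [h, mul_zero, natDegree_zero] at h1
    omega
  rw [natDegree_mul hX hT] at h1
  have h2 : (X - 1 : F[X]).natDegree = 1 := by
    have : (X - 1 : F[X]) = X - C 1 := by simp
    rw [this, natDegree_X_sub_C]
  omega

/-- the multiplier of the differential equation of `X^t (X - 1)^m` -/
noncomputable def Qd (m t : F) : F[X] := C m * X + C t * (X - 1)

/-- the digits -/
noncomputable def dig (m t : F) (r : ℕ) (c : F[X]) : ℕ → F[X]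
  | 0 => c
  | i + 1 => C ((((i + 1 : ℕ) : F) * r)⁻¹) * (Qd m t * dig m t r c i -
      X * (X - 1) * derivative (dig m t r c i) -
      C (i : F) * (C (r : F) * (X - 1) - X) * dig m t r c i)

lemma dig_rec (m t : F) {r : ℕ} (hr : (r : F) ≠ 0) (c : F[X]) {i : ℕ} (hi : ((i + 1 : ℕ) : F) ≠ 0) :
    C (((i + 1 : ℕ) : F) * r) * dig m t r c (i + 1) = Qd m t * dig m t r c i -
      X * (X - 1) * derivative (dig m t r c i) -
      C (i : F) * (C (r : F) * (X - 1) - X) * dig m t r c i := by
  rw [dig, ← mul_assoc, ← C_mul, mul_inv_cancel₀ (mul_ne_zero hi hr), C_1, one_mul]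

lemma natDegree_X_sub_one_le : (X - 1 : F[X]).natDegree ≤ 1 := by
  have : (X - 1 : F[X]) = X - C 1 := by simp
  rw [this, natDegree_X_sub_C]

lemma dig_deg (m t : F) (r : ℕ) {c : F[X]} {σ : ℕ} (hc : c.natDegree ≤ σ) (i : ℕ) :
    (dig m t r c i).natDegree ≤ σ + i := by
  induction i with
  | zero => exact hc
  | succ i ih =>
    rw [dig]
    refine (natDegree_C_mul_le _ _).trans ?_
    have hX1 : (X - 1 : F[X]).natDegree ≤ 1 := natDegree_X_sub_one_le
    have h1 : (Qd m t * dig m t r c i).natDegree ≤ σ + (i + 1) := by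
      refine natDegree_mul_le.trans ?_
      have : (Qd m t).natDegree ≤ 1 := by
        unfold Qd
        refine (natDegree_add_le _ _).trans (max_le ?_ ?_)
        · exact (natDegree_C_mul_le _ _).trans natDegree_X_le
        · exact (natDegree_C_mul_le _ _).trans hX1
      omega
    have h2 : (X * (X - 1) * derivative (dig m t r c i)).natDegree ≤ σ + (i + 1) := by
      by_cases h0 : (dig m t r c i).natDegree = 0
      · rw [eq_C_of_natDegree_eq_zero h0, derivative_C, mul_zero, natDegree_zero]
        omega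
      · refine natDegree_mul_le.trans ?_
        have h3 : (X * (X - 1) : F[X]).natDegree ≤ 2 := by
          refine natDegree_mul_le.trans ?_
          have : (X : F[X]).natDegree ≤ 1 := natDegree_X_le
          omega
        have h4 := natDegree_derivative_le (dig m t r c i)
        omega
    have h3 : (C (i : F) * (C (r : F) * (X - 1) - X) * dig m t r c i).natDegree ≤
        σ + (i + 1) := by
      refine natDegree_mul_le.trans ?_
      have : (C (i : F) * (C (r : F) * (X - 1) - X) : F[X]).natDegree ≤ 1 := by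
        refine (natDegree_C_mul_le _ _).trans ((natDegree_sub_le _ _).trans (max_le ?_ ?_))
        · exact (natDegree_C_mul_le _ _).trans hX1
        · exact natDegree_X_le
      omega
    exact (natDegree_sub_le _ _).trans (max_le ((natDegree_sub_le _ _).trans (max_le h1 h2)) h3)

/-- the partial sums of the expansion -/
noncomputable def psum (m t : F) (r : ℕ) (c : F[X]) (j : ℕ) : F[X] :=
  ∑ i ∈ range (j + 1), dig m t r c i * Th F r ^ i

lemma psum_deriv (m t : F) {r : ℕ} (hr : (r : F) ≠ 0) (c : F[X]) (j : ℕ)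
    (hj : ∀ i ≤ j, ((i + 1 : ℕ) : F) ≠ 0) :
    X * (X - 1) * derivative (psum m t r c j) = Qd m t * psum m t r c j -
      C (((j + 1 : ℕ) : F) * r) * dig m t r c (j + 1) * Th F r ^ j := by
  induction j with
  | zero =>
    have h1 := dig_rec m t hr c (hj 0 le_rfl)
    have h2 : psum m t r c 0 = dig m t r c 0 := by simp [psum]
    rw [h2, pow_zero, mul_one, h1]
    simp
  | succ j ih =>
    have ih' := ih fun i hi => hj i (by omega)
    have h1 := dig_rec m t hr c (hj (j + 1) le_rfl)
    have h2 : psum m t r c (j + 1) = psum m t r c j + dig m t r c (j + 1) * Th F r ^ (j + 1) := by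
      unfold psum
      rw [Finset.sum_range_succ]
    have h3 := Th_deriv (F := F) r
    rw [h2, derivative_add, derivative_mul, derivative_pow_succ]
    have e2 : C ((j : F) + 1) = C (((j + 1 : ℕ) : F)) := by push_cast; rfl
    rw [h1]
    have e3 : (C (((j + 1 : ℕ) : F) * r) : F[X]) = C (((j + 1 : ℕ) : F)) * C (r : F) := C_mul
    rw [e3] at ih'
    rw [e2]
    linear_combination ih' + C (((j + 1 : ℕ) : F)) * Th F r ^ j * dig m t r c (j + 1) * h3

lemma psum_dvd (m t : F) {r : ℕ} (hr : (r : F) ≠ 0) {c P : F[X]}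
    (hP : X * (X - 1) * derivative P = Qd m t * P) (h0 : Th F r ∣ P - c) (j : ℕ)
    (hj : ∀ i < j, ((i + 1 : ℕ) : F) ≠ 0) : Th F r ^ (j + 1) ∣ P - psum m t r c j := by
  induction j with
  | zero => simpa [psum, dig] using h0
  | succ j ih =>
    obtain ⟨G, hG⟩ := ih fun i hi => hj i (by omega)
    have hj1 : ((j + 1 : ℕ) : F) ≠ 0 := hj j (by omega)
    have h1 := psum_deriv m t hr c j fun i hi => hj i (by omega)
    have h2 : X * (X - 1) * derivative (P - psum m t r c j) = Qd m t * (P - psum m t r c j) +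
        C (((j + 1 : ℕ) : F) * r) * dig m t r c (j + 1) * Th F r ^ j := by
      rw [derivative_sub]
      linear_combination hP - h1
    have h3 := Th_deriv (F := F) r
    rw [hG, derivative_mul, derivative_pow_succ] at h2
    have e2 : C ((j : F) + 1) = C (((j + 1 : ℕ) : F)) := by push_cast; rfl
    rw [e2] at h2
    have e3 : (C (((j + 1 : ℕ) : F) * r) : F[X]) = C (((j + 1 : ℕ) : F)) * C (r : F) := C_mul
    rw [e3] at h2
    have h4 : Th F r ^ j * (C (((j + 1 : ℕ) : F)) * C (r : F) * (G - dig m t r c (j + 1))) =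
        Th F r ^ j * (Th F r * (Qd m t * G - X * (X - 1) * derivative G -
          C (((j + 1 : ℕ) : F)) * G * (C (r : F) * (X - 1) - X))) := by
      linear_combination h2 - C (((j + 1 : ℕ) : F)) * Th F r ^ j * G * h3
    have h5 := mul_left_cancel₀ (pow_ne_zero j (Th_ne hr)) h4
    have h6 : Th F r ∣ G - dig m t r c (j + 1) := by
      have hu : IsUnit (C (((j + 1 : ℕ) : F)) * C (r : F)) := by
        rw [← C_mul]
        exact isUnit_C.2 (isUnit_iff_ne_zero.2 (mul_ne_zero hj1 hr))
      exact (hu.dvd_mul_left).1 ⟨_, h5⟩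
    obtain ⟨G', hG'⟩ := h6
    refine ⟨G', ?_⟩
    have h7 : psum m t r c (j + 1) = psum m t r c j + dig m t r c (j + 1) * Th F r ^ (j + 1) := by
      unfold psum
      rw [Finset.sum_range_succ]
    rw [h7]
    linear_combination hG + Th F r ^ (j + 1) * hG'

/-- the expansion is finite -/
lemma psum_eq (m t : F) {r : ℕ} (hr : (r : F) ≠ 0) {c P : F[X]} {σ K : ℕ}
    (hP : X * (X - 1) * derivative P = Qd m t * P) (h0 : Th F r ∣ P - c)
    (hc : c.natDegree ≤ σ) (hdeg : P.natDegree ≤ K * r + σ) (hK : σ + K + 2 ≤ r)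
    (hj : ∀ i < K, ((i + 1 : ℕ) : F) ≠ 0) : P = psum m t r c K := by
  have hd := psum_dvd m t hr hP h0 K hj
  have hT : (Th F r).natDegree = r - 1 := Th_natDegree (by omega)
  have h1 : (psum m t r c K).natDegree ≤ K * r + σ := by
    unfold psum
    refine natDegree_sum_le_of_forall_le _ _ fun i hi => ?_
    have hi' : i ≤ K := by
      have := Finset.mem_range.1 hi
      omega
    refine natDegree_mul_le.trans ?_
    have h2 := dig_deg m t r hc i
    have h3 : (Th F r ^ i).natDegree ≤ i * (r - 1) := by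
      refine natDegree_pow_le.trans ?_
      rw [hT]
    have h4 : i * (r - 1) + i = i * r := by
      obtain ⟨r', rfl⟩ : ∃ r', r = r' + 1 := ⟨r - 1, by omega⟩
      simp
      ring
    have h5 : i * r ≤ K * r := Nat.mul_le_mul_right r hi'
    omega
  have h2 : (P - psum m t r c K).natDegree ≤ K * r + σ :=
    (natDegree_sub_le _ _).trans (max_le hdeg h1)
  by_contra hne
  have hne' : P - psum m t r c K ≠ 0 := fun h => hne (sub_eq_zero.1 h)
  have h3 := natDegree_le_of_dvd hd hne'
  rw [natDegree_pow, hT] at h3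
  have h4 : (K + 1) * (r - 1) + (K + 1) = (K + 1) * r := by
    obtain ⟨r', rfl⟩ : ∃ r', r = r' + 1 := ⟨r - 1, by omega⟩
    simp
    ring
  have h5 : (K + 1) * r = K * r + r := by ring
  omega

end Pool.Agent.Helper96.AG
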