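import Pool.Agent.Helper96.AG.Core

/-!
# The numerical consequence
-/

set_option autoImplicit false

namespace Pool.Agent.Helper96.AG

open Polynomial Finset

variable {F : Type} [Field F]

lemma eval_Th (S : ℕ) : eval 1 (Th F S) = (S : F) := by
  unfold Th
  rw [eval_finsetSum]
  simp

lemma dvd_pow_form {p : ℕ} [CharP F p] (hp : p.Prime) {S M : ℕ} (hS : 1 ≤ S)
    (h : (X ^ S - 1 : F[X]) ∣ (X - 1) ^ M) : ∃ y, S = p ^ y := by
  obtain ⟨y, S', hS', e⟩ := Nat.exists_eq_pow_mul_and_not_dvd (by omega : S ≠ 0) p hp.ne_one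
  have : ExpChar F p := ExpChar.prime hp
  have hS'0 : 0 < S' := by
    rcases Nat.eq_zero_or_pos S' with h0 | h0
    · subst h0
      exact absurd (dvd_zero p) hS'
    · exact h0
  have h1 : (X ^ S - 1 : F[X]) = (X ^ S' - 1) ^ (p ^ y) := by
    rw [e, Nat.mul_comm, pow_mul, sub_pow_expChar_pow, one_pow]
  have h2 : Th F S' ∣ (X - 1) ^ M := by
    have h3 : Th F S' ∣ X ^ S' - 1 := ⟨X - 1, by rw [← Th_mul]; ring⟩
    have h4 : (X ^ S' - 1 : F[X]) ∣ (X ^ S' - 1) ^ (p ^ y) :=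
      dvd_pow_self _ (pow_ne_zero _ hp.ne_zero)
    rw [h1] at h
    exact h3.trans (h4.trans h)
  have h3 : IsCoprime (X - C 1 : F[X]) (Th F S') := by
    rw [(irreducible_X_sub_C (1 : F)).coprime_iff_not_dvd, dvd_iff_isRoot, IsRoot, eval_Th]
    intro h0
    exact hS' ((CharP.cast_eq_zero_iff F p _).1 h0)
  rw [C_1] at h3
  have h4 : IsUnit (Th F S') := (h3.pow_left (m := M)).isUnit_of_dvd' h2 dvd_rfl
  have h5 := natDegree_eq_zero_of_isUnit h4
  rw [Th_natDegree hS'0] at h5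
  refine ⟨y, ?_⟩
  rw [e, show S' = 1 by omega, Nat.mul_one]

lemma natDegree_pow_sub {S : ℕ} : (X ^ S - 1 : F[X]).natDegree = S := by
  have : (X ^ S - 1 : F[X]) = X ^ S - C 1 := by simp
  rw [this, natDegree_X_pow_sub_C]

theorem core2 {p r σ K t m : ℕ} [CharP F p] (hp : p.Prime) (hr : (r : F) ≠ 0) {ε : F}
    (ht : (t = 0 ∧ ε = 1) ∨ (t = σ ∧ ε = -1))
    (hσ : (σ : F) ≠ 0) (hK : σ + K + 2 ≤ r) (h3 : 3 * K < p) (hm : (m : F) ≠ 0) (hm2 : 2 ≤ m)
    (h0 : Th F r ∣ X ^ t * (X - 1) ^ m - C ε * (X ^ σ - 1))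
    (hdeg : t + m ≤ K * r + σ) :
    ∃ b x y : ℕ, 1 ≤ b ∧ b ≤ K ∧ 1 ≤ x ∧ r ∣ p ^ x - 1 ∧ m + b = p ^ y + b * p ^ x := by
  obtain ⟨b, S, N, hb1, hbK, hS1, hN1, hrN, he⟩ := core hp hr ht hσ hK h3 hm hm2 h0 hdeg
  obtain ⟨y, hy⟩ := dvd_pow_form (F := F) hp (M := m + b) hS1 ⟨_, he⟩
  obtain ⟨x, hx⟩ := dvd_pow_form (F := F) hp (S := N) (M := m + b) (by omega)
    ((dvd_pow_self _ (by omega : b ≠ 0)).trans ⟨X ^ S - 1, by rw [he]; ring⟩)
  have hd := congrArg natDegree he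
  have hSne : (X ^ S - 1 : F[X]) ≠ 0 := by
    intro h
    have := natDegree_pow_sub (F := F) (S := S)
    rw [h, natDegree_zero] at this
    omega
  have hNne : (X ^ N - 1 : F[X]) ≠ 0 := by
    intro h
    have := natDegree_pow_sub (F := F) (S := N)
    rw [h, natDegree_zero] at this
    omega
  rw [natDegree_mul hSne (pow_ne_zero _ hNne), natDegree_pow, natDegree_pow, natDegree_pow_sub,
    natDegree_pow_sub] at hd
  have h1 : (X - 1 : F[X]).natDegree = 1 := by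
    have : (X - 1 : F[X]) = X - C 1 := by simp
    rw [this, natDegree_X_sub_C]
  rw [h1, Nat.mul_one] at hd
  refine ⟨b, x, y, hb1, hbK, ?_, hx ▸ hrN, ?_⟩
  · by_contra h
    have : x = 0 := by omega
    rw [this, pow_zero] at hx
    omega
  · rw [← hx, ← hy]
    exact hd

/-- the classification for the exponent `m` prime to the characteristic -/
theorem form {p r m : ℕ} [CharP F p] (hp : p.Prime) (hr : (r : F) ≠ 0) (hm : (m : F) ≠ 0)
    (hm2 : 2 ≤ m) (hmr : Nat.Coprime m r) (h3 : 3 * (m / r + 1) < p) (h2 : 2 * (m / r) + 4 ≤ r)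
    (hdvd : (X ^ r - 1 : F[X]) ∣ (X - 1) ^ m - (X ^ m - 1)) :
    ∃ b x y : ℕ, 1 ≤ b ∧ b ≤ m / r + 1 ∧ 1 ≤ x ∧ r ∣ p ^ x - 1 ∧ m + b = p ^ y + b * p ^ x := by
  set k := m / r with hk
  set s := m % r with hs
  have hmk : r * k + s = m := Nat.div_add_mod m r
  have hsr : s < r := Nat.mod_lt _ (by omega)
  have hs1 : 1 ≤ s := by
    by_contra h
    have h0 : m % r = 0 := by omega
    have h4 : r ∣ Nat.gcd m r := Nat.dvd_gcd (Nat.dvd_of_mod_eq_zero h0) dvd_rfl
    rw [hmr] at h4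
    have := Nat.le_of_dvd one_pos h4
    omega
  have hTr : Th F r ∣ X ^ r - 1 := ⟨X - 1, by rw [← Th_mul]; ring⟩
  have hXm : (X ^ r - 1 : F[X]) ∣ X ^ m - X ^ s := by
    have h4 : (X ^ r - 1 : F[X]) ∣ (X ^ r) ^ k - 1 := by
      have := sub_dvd_pow_sub_pow (X ^ r : F[X]) 1 k
      rwa [one_pow] at this
    have h5 : (X ^ m - X ^ s : F[X]) = ((X ^ r) ^ k - 1) * X ^ s := by
      rw [← hmk, pow_add, pow_mul]
      ring
    rw [h5]
    exact h4.mul_right _
  by_cases hc : (s : F) ≠ 0 ∧ s + k + 2 ≤ r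
  · obtain ⟨b, x, y, h4, h5, h6, h7, h8⟩ := core2 (F := F) (p := p) (r := r) (σ := s) (K := k)
      (t := 0) (m := m) (ε := 1) hp hr (Or.inl ⟨rfl, rfl⟩) hc.1 hc.2 (by omega) hm hm2 (by
        refine hTr.trans ?_
        have : (X : F[X]) ^ 0 * (X - 1) ^ m - C 1 * (X ^ s - 1) =
            ((X - 1) ^ m - (X ^ m - 1)) + (X ^ m - X ^ s) := by
          rw [C_1]
          ring
        rw [this]
        exact dvd_add hdvd hXm) (by rw [Nat.mul_comm k r]; omega)
    exact ⟨b, x, y, h4, by omega, h6, h7, h8⟩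
  · have hs3 : k + 3 ≤ s := by
      by_cases hs0 : (s : F) = 0
      · have h4 := Nat.le_of_dvd hs1 ((CharP.cast_eq_zero_iff F p _).1 hs0)
        omega
      · have : ¬ (s + k + 2 ≤ r) := fun h => hc ⟨hs0, h⟩
        omega
    have hσ0 : ((r - s : ℕ) : F) ≠ 0 := by
      by_cases hs0 : (s : F) = 0
      · rw [Nat.cast_sub hsr.le, hs0, sub_zero]
        exact hr
      · have h4 : ¬ (s + k + 2 ≤ r) := fun h => hc ⟨hs0, h⟩
        intro h5
        have h6 := Nat.le_of_dvd (by omega) ((CharP.cast_eq_zero_iff F p _).1 h5)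
        omega
    obtain ⟨b, x, y, h4, h5, h6, h7, h8⟩ := core2 (F := F) (p := p) (r := r) (σ := r - s)
      (K := k + 1) (t := r - s) (m := m) (ε := -1) hp hr (Or.inr ⟨rfl, rfl⟩) hσ0 (by omega) h3 hm
      hm2 (by
        refine hTr.trans ?_
        have e1 : (X : F[X]) ^ r = X ^ (r - s) * X ^ s := by
          rw [← pow_add]
          congr 1
          omega
        have : (X : F[X]) ^ (r - s) * (X - 1) ^ m - C (-1) * (X ^ (r - s) - 1) =
            X ^ (r - s) * ((X - 1) ^ m - (X ^ m - 1)) + X ^ (r - s) * (X ^ m - X ^ s) +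
              (X ^ r - 1) := by
          rw [e1, C_neg, C_1]
          ring
        rw [this]
        exact dvd_add (dvd_add (hdvd.mul_left _) (hXm.mul_left _)) dvd_rfl) (by
        have : (k + 1) * r = r * k + r := by ring
        omega)
    exact ⟨b, x, y, h4, by omega, h6, h7, h8⟩

end Pool.Agent.Helper96.AG
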