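import Pool.Agent.Helper96.AG.Dig

/-!
# Representations by polynomials in `X` and `X ^ r`
-/

set_option autoImplicit false

namespace Pool.Agent.Helper96.AG

open Polynomial Finset

variable {F : Type} [Field F]

/-- the coefficient of a sum of polynomials of small degree times powers of `X ^ r` -/
lemma coeff_sum_pow {r n : ℕ} {b : ℕ → F[X]} (hb : ∀ w, (b w).natDegree < r) {j w : ℕ}
    (hj : j < r) (hw : w < n) :
    (∑ v ∈ range n, b v * X ^ (r * v)).coeff (j + r * w) = (b w).coeff j := by
  rw [finsetSum_coeff, Finset.sum_eq_single w]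
  · rw [coeff_mul_X_pow]
  · intro v _ hv
    rw [coeff_mul_X_pow']
    split_ifs with h
    · apply coeff_eq_zero_of_natDegree_lt
      have h1 := hb v
      rcases lt_or_gt_of_ne hv with h2 | h2
      · have : r * (v + 1) ≤ r * w := Nat.mul_le_mul_left r h2
        have : r * (v + 1) = r * v + r := by ring
        omega
      · have : r * (w + 1) ≤ r * v := Nat.mul_le_mul_left r h2
        have : r * (w + 1) = r * w + r := by ring
        omega
    · rfl
  · intro h
    exact absurd (Finset.mem_range.2 hw) h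

lemma eq_zero_of_sum_pow {r n : ℕ} {b : ℕ → F[X]} (hb : ∀ w, (b w).natDegree < r)
    (h : ∑ v ∈ range n, b v * X ^ (r * v) = 0) {w : ℕ} (hw : w < n) : b w = 0 := by
  ext j
  rw [coeff_zero]
  by_cases hj : j < r
  · rw [← coeff_sum_pow hb hj hw, h, coeff_zero]
  · exact coeff_eq_zero_of_natDegree_lt (by have := hb w; omega)

/-- `X ^ t (X - 1) ^ M` is a polynomial in `X` and `X ^ r` of small degrees -/
structure Rep (r σ K t M : ℕ) (a : ℕ → F[X]) (D : F[X]) : Prop where
  deg : ∀ w, (a w).natDegree ≤ σ + K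
  sum : (X : F[X]) ^ t * (X - 1) ^ M = ∑ w ∈ range (K + 1), a w * X ^ (r * w)
  one : ∑ w ∈ range (K + 1), a w = D

lemma X_sub_one_ne : (X - 1 : F[X]) ≠ 0 := by
  have : (X - 1 : F[X]) = X - C 1 := by simp
  rw [this]
  exact X_sub_C_ne_zero 1

lemma pow_deriv (t M : ℕ) : X * (X - 1) * derivative ((X : F[X]) ^ t * (X - 1) ^ M) =
    Qd (M : F) t * (X ^ t * (X - 1) ^ M) := by
  have h1 : X * derivative ((X : F[X]) ^ t) = C (t : F) * X ^ t := by
    rcases Nat.eq_zero_or_pos t with h | h
    · subst h
      simp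
    · obtain ⟨t, rfl⟩ := Nat.exists_eq_succ_of_ne_zero h.ne'
      rw [derivative_X_pow, Nat.succ_sub_one, pow_succ]
      ring
  have h2 : (X - 1) * derivative ((X - 1 : F[X]) ^ M) = C (M : F) * (X - 1) ^ M := by
    rcases Nat.eq_zero_or_pos M with h | h
    · subst h
      simp
    · obtain ⟨M, rfl⟩ := Nat.exists_eq_succ_of_ne_zero h.ne'
      rw [derivative_pow_succ, derivative_sub, derivative_X, derivative_one, sub_zero, mul_one,
        pow_succ]
      push_cast
      ring
  rw [derivative_mul]
  unfold Qd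
  linear_combination (X - 1) ^ (M + 1) * h1 + X ^ (t + 1) * h2

/-- the first representation -/
theorem rep_start {r σ K t m : ℕ} (hr : (r : F) ≠ 0) {c : F[X]}
    (h0 : Th F r ∣ X ^ t * (X - 1) ^ m - c) (hc : c.natDegree ≤ σ)
    (hdeg : t + m ≤ K * r + σ) (hK : σ + K + 2 ≤ r)
    (hj : ∀ i < K, ((i + 1 : ℕ) : F) ≠ 0) :
    ∃ a : ℕ → F[X], Rep r σ K t (m + K) a ((X - 1) ^ K * c) := by
  have hP := pow_deriv (F := F) t m
  have hd : ((X : F[X]) ^ t * (X - 1) ^ m).natDegree ≤ K * r + σ := by
    refine natDegree_mul_le.trans ?_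
    rw [natDegree_X_pow]
    have : ((X - 1 : F[X]) ^ m).natDegree ≤ m := by
      refine natDegree_pow_le.trans ?_
      have := natDegree_X_sub_one_le (F := F)
      calc m * (X - 1 : F[X]).natDegree ≤ m * 1 := Nat.mul_le_mul_left m this
        _ = m := mul_one m
    omega
  have hps := psum_eq (m : F) (t : F) hr hP h0 hc hd hK hj
  -- the coefficients
  set c' : ℕ → F[X] := fun i => dig (m : F) (t : F) r c i * (X - 1) ^ (K - i) with hc'
  have hexp : ∀ i ≤ K, ((X : F[X]) ^ r - 1) ^ i = ∑ w ∈ range (K + 1),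
      C (((-1 : F)) ^ (i - w) * (i.choose w : F)) * X ^ (r * w) := by
    intro i hi
    have h1 : ((X : F[X]) ^ r - 1) ^ i = (X ^ r + (-1)) ^ i := by ring
    rw [h1, add_pow]
    have h2 : ∑ w ∈ range (K + 1), C (((-1 : F)) ^ (i - w) * (i.choose w : F)) * X ^ (r * w) =
        ∑ w ∈ range (i + 1), C (((-1 : F)) ^ (i - w) * (i.choose w : F)) * X ^ (r * w) := by
      symm
      refine Finset.sum_subset (Finset.range_subset_range.2 (by omega)) fun w _ hw => ?_
      have : i < w := by
        by_contra h
        exact hw (Finset.mem_range.2 (by omega))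
      rw [Nat.choose_eq_zero_of_lt this]
      simp
    rw [h2]
    refine Finset.sum_congr rfl fun w _ => ?_
    rw [← pow_mul]
    simp only [C_mul, C_pow, C_neg, C_1, map_natCast]
    ring
  refine ⟨fun w => ∑ i ∈ range (K + 1), C (((-1 : F)) ^ (i - w) * (i.choose w : F)) * c' i,
    ?_, ?_, ?_⟩
  · intro w
    refine natDegree_sum_le_of_forall_le _ _ fun i hi => ?_
    have hi' : i ≤ K := by
      have := Finset.mem_range.1 hi
      omega
    refine (natDegree_C_mul_le _ _).trans (natDegree_mul_le.trans ?_)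
    have h1 := dig_deg (m : F) (t : F) r hc i
    have h2 : ((X - 1 : F[X]) ^ (K - i)).natDegree ≤ K - i := by
      refine natDegree_pow_le.trans ?_
      have := natDegree_X_sub_one_le (F := F)
      calc (K - i) * (X - 1 : F[X]).natDegree ≤ (K - i) * 1 := Nat.mul_le_mul_left _ this
        _ = K - i := mul_one _
    omega
  · have h1 : (X : F[X]) ^ t * (X - 1) ^ (m + K) = ∑ i ∈ range (K + 1), c' i * (X ^ r - 1) ^ i := by
      rw [pow_add, ← mul_assoc, hps]
      unfold psum
      rw [Finset.sum_mul]
      refine Finset.sum_congr rfl fun i hi => ?_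
      have hi' : i ≤ K := by
        have := Finset.mem_range.1 hi
        omega
      rw [← Th_mul, hc', mul_pow]
      have : (X - 1 : F[X]) ^ K = (X - 1) ^ (K - i) * (X - 1) ^ i := by
        rw [← pow_add]
        congr 1
        omega
      rw [this]
      ring
    rw [h1]
    have h2 : ∀ i ∈ range (K + 1), c' i * (X ^ r - 1) ^ i = ∑ w ∈ range (K + 1),
        C (((-1 : F)) ^ (i - w) * (i.choose w : F)) * c' i * X ^ (r * w) := by
      intro i hi
      have hi' : i ≤ K := by
        have := Finset.mem_range.1 hi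
        omega
      rw [hexp i hi', Finset.mul_sum]
      refine Finset.sum_congr rfl fun w _ => ?_
      ring
    rw [Finset.sum_congr rfl h2, Finset.sum_comm]
    refine Finset.sum_congr rfl fun w _ => ?_
    rw [Finset.sum_mul]
  · rw [Finset.sum_comm]
    have h3 : ∀ i ∈ range (K + 1), ∑ w ∈ range (K + 1),
        C (((-1 : F)) ^ (i - w) * (i.choose w : F)) * c' i = if i = 0 then c' 0 else 0 := by
      intro i hi
      have hi' : i ≤ K := by
        have := Finset.mem_range.1 hi
        omega
      rw [← Finset.sum_mul, ← map_sum]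
      have h4 : ∑ w ∈ range (K + 1), ((-1 : F)) ^ (i - w) * (i.choose w : F) =
          ((1 : F) + (-1)) ^ i := by
        rw [add_pow]
        symm
        have h5 : ∑ w ∈ range (K + 1), ((-1 : F)) ^ (i - w) * (i.choose w : F) =
            ∑ w ∈ range (i + 1), ((-1 : F)) ^ (i - w) * (i.choose w : F) := by
          symm
          refine Finset.sum_subset (Finset.range_subset_range.2 (by omega)) fun w _ hw => ?_
          have : i < w := by
            by_contra h
            exact hw (Finset.mem_range.2 (by omega))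
          rw [Nat.choose_eq_zero_of_lt this]
          simp
        rw [h5]
        refine Finset.sum_congr rfl fun w _ => ?_
        ring
      rw [h4]
      by_cases h0 : i = 0
      · subst h0
        simp
      · rw [if_neg h0, add_neg_cancel, zero_pow h0, C_0, zero_mul]
    rw [Finset.sum_congr rfl h3, Finset.sum_ite_eq' (range (K + 1)) 0]
    rw [if_pos (Finset.mem_range.2 (by omega)), hc']
    simp only [Nat.sub_zero, dig]
    ring

/-- division by `X - 1` -/
theorem rep_step {r σ K t M : ℕ} (hK : σ + K + 2 ≤ r) {a : ℕ → F[X]} {D : F[X]}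
    (h : Rep r σ K t (M + 1) a D) (hM : ((M + 1 : ℕ) : F) ≠ 0) :
    ∃ (a' : ℕ → F[X]) (D' : F[X]), Rep r σ K t M a' D' ∧ D = (X - 1) * D' := by
  have hode := pow_deriv (F := F) t (M + 1)
  have hX1 : (X - 1 : F[X]).natDegree ≤ 1 := natDegree_X_sub_one_le
  rw [h.sum] at hode
  have h1 : X * derivative (∑ w ∈ range (K + 1), a w * X ^ (r * w)) =
      ∑ w ∈ range (K + 1), (X * derivative (a w) + C ((r * w : ℕ) : F) * a w) * X ^ (r * w) := by
    rw [derivative_sum, Finset.mul_sum]
    refine Finset.sum_congr rfl fun w _ => ?_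
    rw [derivative_mul]
    have h2 : X * derivative ((X : F[X]) ^ (r * w)) = C ((r * w : ℕ) : F) * X ^ (r * w) := by
      rcases Nat.eq_zero_or_pos (r * w) with h | h
      · rw [h]
        simp
      · obtain ⟨n, hn⟩ := Nat.exists_eq_succ_of_ne_zero h.ne'
        rw [hn, derivative_X_pow, Nat.succ_sub_one, pow_succ]
        ring
    linear_combination a w * h2
  have h2 : ∑ w ∈ range (K + 1), ((X - 1) * (X * derivative (a w) + C ((r * w : ℕ) : F) * a w) -
      Qd ((M + 1 : ℕ) : F) t * a w) * X ^ (r * w) = 0 := by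
    have h3 : ∑ w ∈ range (K + 1), ((X - 1) * (X * derivative (a w) + C ((r * w : ℕ) : F) * a w) -
      Qd ((M + 1 : ℕ) : F) t * a w) * X ^ (r * w) =
      (X - 1) * ∑ w ∈ range (K + 1), (X * derivative (a w) + C ((r * w : ℕ) : F) * a w) *
        X ^ (r * w) - Qd ((M + 1 : ℕ) : F) t * ∑ w ∈ range (K + 1), a w * X ^ (r * w) := by
      rw [Finset.mul_sum, Finset.mul_sum, ← Finset.sum_sub_distrib]
      refine Finset.sum_congr rfl fun w _ => ?_
      ring
    rw [h3, ← h1, ← hode]
    ring
  have hdeg : ∀ w, ((X - 1) * (X * derivative (a w) + C ((r * w : ℕ) : F) * a w) -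
      Qd ((M + 1 : ℕ) : F) t * a w).natDegree < r := by
    intro w
    have h4 := h.deg w
    have h5 : (X * derivative (a w) + C ((r * w : ℕ) : F) * a w).natDegree ≤ σ + K := by
      refine (natDegree_add_le _ _).trans (max_le ?_ ?_)
      · by_cases h0 : (a w).natDegree = 0
        · rw [eq_C_of_natDegree_eq_zero h0, derivative_C, mul_zero, natDegree_zero]
          omega
        · refine natDegree_mul_le.trans ?_
          have h6 := natDegree_derivative_le (a w)
          have h7 : (X : F[X]).natDegree ≤ 1 := natDegree_X_le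
          omega
      · exact (natDegree_C_mul_le _ _).trans h4
    have h6 : ((X - 1) * (X * derivative (a w) + C ((r * w : ℕ) : F) * a w)).natDegree ≤
        σ + K + 1 := by
      refine natDegree_mul_le.trans ?_
      omega
    have h7 : (Qd ((M + 1 : ℕ) : F) t * a w).natDegree ≤ σ + K + 1 := by
      refine natDegree_mul_le.trans ?_
      have : (Qd ((M + 1 : ℕ) : F) (t : F)).natDegree ≤ 1 := by
        unfold Qd
        refine (natDegree_add_le _ _).trans (max_le ?_ ?_)
        · exact (natDegree_C_mul_le _ _).trans natDegree_X_le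
        · exact (natDegree_C_mul_le _ _).trans hX1
      omega
    exact lt_of_le_of_lt ((natDegree_sub_le _ _).trans (max_le h6 h7)) (by omega)
  have hroot : ∀ w ∈ range (K + 1), (a w).IsRoot 1 := by
    intro w hw
    have h3 := eq_zero_of_sum_pow hdeg h2 (Finset.mem_range.1 hw)
    have h4 := congrArg (eval (1 : F)) h3
    unfold Qd at h4
    simp only [eval_sub, eval_mul, eval_add, eval_X, eval_one, eval_C, sub_self, zero_mul,
      mul_one, mul_zero, add_zero, zero_sub, eval_zero, neg_eq_zero] at h4
    exact (mul_eq_zero.1 h4).resolve_left hM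
  have hdiv : ∀ w ∈ range (K + 1), a w = (X - 1) * (a w /ₘ (X - C 1)) := by
    intro w hw
    have h3 := mul_divByMonic_eq_iff_isRoot.2 (hroot w hw)
    rw [C_1] at h3 ⊢
    exact h3.symm
  refine ⟨fun w => a w /ₘ (X - C 1), ∑ w ∈ range (K + 1), a w /ₘ (X - C 1), ⟨?_, ?_, rfl⟩, ?_⟩
  · intro w
    rw [natDegree_divByMonic _ (monic_X_sub_C 1)]
    have := h.deg w
    omega
  · apply mul_left_cancel₀ (X_sub_one_ne (F := F))
    have h3 := h.sum
    rw [Finset.mul_sum]
    rw [Finset.sum_congr rfl fun w hw => show (X - 1 : F[X]) * (a w /ₘ (X - C 1) * X ^ (r * w)) =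
      a w * X ^ (r * w) by rw [← mul_assoc, ← hdiv w hw], ← h3]
    ring
  · rw [← h.one, Finset.mul_sum]
    exact Finset.sum_congr rfl hdiv

/-- repeated division by `X - 1` -/
theorem rep_down {r σ K t M : ℕ} (hK : σ + K + 2 ≤ r) (ρ : ℕ) {a : ℕ → F[X]} {D : F[X]}
    (h : Rep r σ K t (M + ρ) a D) (hM : ∀ i, M < i → i ≤ M + ρ → ((i : ℕ) : F) ≠ 0) :
    ∃ (a' : ℕ → F[X]) (D' : F[X]), Rep r σ K t M a' D' ∧ D = (X - 1) ^ ρ * D' := by
  induction ρ generalizing a D with
  | zero => exact ⟨a, D, h, by simp⟩
  | succ ρ ih =>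
    obtain ⟨a1, D1, h1, e1⟩ := rep_step hK h (hM (M + ρ + 1) (by omega) (by omega))
    obtain ⟨a2, D2, h2, e2⟩ := ih h1 fun i hi1 hi2 => hM i hi1 (by omega)
    exact ⟨a2, D2, h2, by rw [e1, e2]; ring⟩

/-- if `M` is `0` in `F` then the representation is very sparse -/
theorem rep_expo {p r σ K t M : ℕ} [CharP F p] (hr : (r : F) ≠ 0) (hK : σ + K + 2 ≤ r)
    (hp : K < p) {a : ℕ → F[X]} {D : F[X]} (h : Rep r σ K t M a D) (hM : (M : F) = 0) :
    ∃ w : ℕ → ℕ, (∀ j, w j ≤ K) ∧ (∀ j ∈ D.support, ((j + r * w j : ℕ) : F) = t) ∧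
      (∀ j ∈ D.support, ((X : F[X]) ^ t * (X - 1) ^ M).coeff (j + r * w j) = D.coeff j) ∧
      (∀ j u, j < r → u ≤ K → ((X : F[X]) ^ t * (X - 1) ^ M).coeff (j + r * u) ≠ 0 →
        j ∈ D.support ∧ u = w j) ∧
      (X : F[X]) ^ t * (X - 1) ^ M = ∑ j ∈ D.support, C (D.coeff j) * X ^ (j + r * w j) := by
  classical
  set P : F[X] := X ^ t * (X - 1) ^ M with hPdef
  have hode := pow_deriv (F := F) t M
  rw [← hPdef] at hode
  have hode2 : X * derivative P = C (t : F) * P := by
    apply mul_left_cancel₀ (X_sub_one_ne (F := F))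
    unfold Qd at hode
    rw [hM, C_0] at hode
    linear_combination hode
  have hcoef : ∀ e, P.coeff e ≠ 0 → (e : F) = t := by
    intro e he
    have h1 := congrArg (fun q => coeff q e) hode2
    simp only [coeff_C_mul] at h1
    rcases Nat.eq_zero_or_pos e with h0 | h0
    · subst h0
      rw [coeff_X_mul_zero] at h1
      have := (mul_eq_zero.1 h1.symm).resolve_right he
      simp [this]
    · obtain ⟨e, rfl⟩ := Nat.exists_eq_succ_of_ne_zero h0.ne'
      rw [coeff_X_mul, coeff_derivative] at h1
      have h2 : P.coeff (e + 1) * (((e : F) + 1) - t) = 0 := by linear_combination h1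
      have h3 := (mul_eq_zero.1 h2).resolve_left he
      push_cast
      linear_combination h3
  have hPa : ∀ j u, j < r → u ≤ K → P.coeff (j + r * u) = (a u).coeff j := by
    intro j u hj hu
    rw [hPdef, h.sum, coeff_sum_pow (fun w => lt_of_le_of_lt (h.deg w) (by omega)) hj (by omega)]
  have huniq : ∀ j u v, j < r → u ≤ K → v ≤ K → (a u).coeff j ≠ 0 → (a v).coeff j ≠ 0 → u = v := by
    intro j u v hj hu hv h1 h2
    rw [← hPa j u hj hu] at h1
    rw [← hPa j v hj hv] at h2
    have h3 := hcoef _ h1
    have h4 := hcoef _ h2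
    rw [← h4] at h3
    push_cast at h3
    have h5 : (r : F) * u = r * v := by linear_combination h3
    have h6 : (u : F) = v := mul_left_cancel₀ hr h5
    have h7 := (CharP.natCast_eq_natCast F p).1 h6
    exact Nat.ModEq.eq_of_lt_of_lt h7 (by omega) (by omega)
  have hDc : ∀ j, D.coeff j = ∑ u ∈ range (K + 1), (a u).coeff j := by
    intro j
    rw [← h.one, finsetSum_coeff]
  have hex : ∀ j, ∃ u, u ≤ K ∧ (D.coeff j ≠ 0 → (a u).coeff j ≠ 0) := by
    intro j
    by_cases hj : D.coeff j = 0
    · exact ⟨0, Nat.zero_le _, fun h => absurd hj h⟩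
    · by_contra hcon
      push Not at hcon
      apply hj
      rw [hDc]
      refine Finset.sum_eq_zero fun u hu => ?_
      exact (hcon u (by have := Finset.mem_range.1 hu; omega)).2
  choose w hw1 hw2 using hex
  have hDw : ∀ j, j < r → j ∈ D.support → D.coeff j = (a (w j)).coeff j := by
    intro j hjr hj
    have hj' := mem_support_iff.1 hj
    rw [hDc, Finset.sum_eq_single (w j)]
    · intro u hu hne
      by_contra h1
      exact hne (huniq j u (w j) hjr (by have := Finset.mem_range.1 hu; omega) (hw1 j) h1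
        (hw2 j hj'))
    · intro h1
      exact absurd (Finset.mem_range.2 (by have := hw1 j; omega)) h1
  have hmem : ∀ j u, j < r → u ≤ K → (a u).coeff j ≠ 0 → j ∈ D.support ∧ u = w j := by
    intro j u hj hu h1
    have h2 : D.coeff j = (a u).coeff j := by
      rw [hDc, Finset.sum_eq_single u]
      · intro v hv hne
        by_contra h3
        exact hne (huniq j v u hj (by have := Finset.mem_range.1 hv; omega) hu h3 h1)
      · intro h3
        exact absurd (Finset.mem_range.2 (by omega)) h3
    have h3 : D.coeff j ≠ 0 := by rw [h2]; exact h1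
    exact ⟨mem_support_iff.2 h3, huniq j u (w j) hj hu (hw1 j) h1 (hw2 j h3)⟩
  have hDr : ∀ j ∈ D.support, j < r := by
    intro j hj
    have h1 := le_natDegree_of_mem_supp j hj
    have h2 : D.natDegree ≤ σ + K := by
      rw [← h.one]
      exact natDegree_sum_le_of_forall_le _ _ fun u _ => h.deg u
    omega
  refine ⟨w, hw1, ?_, ?_, ?_, ?_⟩
  · intro j hj
    have hjr := hDr j hj
    have h1 : P.coeff (j + r * w j) ≠ 0 := by
      rw [hPa j (w j) hjr (hw1 j)]
      exact hw2 j (mem_support_iff.1 hj)
    exact hcoef _ h1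
  · intro j hj
    rw [hPa j (w j) (hDr j hj) (hw1 j), ← hDw j (hDr j hj) hj]
  · intro j u hj hu h1
    rw [hPa j u hj hu] at h1
    exact hmem j u hj hu h1
  · ext e
    have hr0 : 0 < r := by omega
    rw [finsetSum_coeff]
    simp only [coeff_C_mul, coeff_X_pow]
    have he : e % r + r * (e / r) = e := Nat.mod_add_div e r
    have hlt : e % r < r := Nat.mod_lt e hr0
    by_cases hc : P.coeff e = 0
    · rw [hc]
      symm
      refine Finset.sum_eq_zero fun j hj => ?_
      split_ifs with h1
      · exfalso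
        have h2 := hw2 j (mem_support_iff.1 hj)
        rw [← hPa j (w j) (hDr j hj) (hw1 j), ← h1] at h2
        exact h2 hc
      · rw [mul_zero]
    · -- `e` is an exponent
      have hu : e / r ≤ K := by
        by_contra hcon
        apply hc
        apply coeff_eq_zero_of_natDegree_lt
        rw [hPdef, h.sum]
        refine lt_of_le_of_lt (natDegree_sum_le_of_forall_le (n := (σ + K) + r * K) _ _
          fun v hv => ?_) ?_
        · refine natDegree_mul_le.trans ?_
          rw [natDegree_X_pow]
          have h1 := h.deg v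
          have h2 : r * v ≤ r * K := Nat.mul_le_mul_left r (by have := Finset.mem_range.1 hv; omega)
          omega
        · have h1 : r * (K + 1) ≤ r * (e / r) := Nat.mul_le_mul_left r (by omega)
          have h2 : r * (K + 1) = r * K + r := by ring
          omega
      have h1 : P.coeff (e % r + r * (e / r)) ≠ 0 := by rwa [he]
      rw [hPa _ _ hlt hu] at h1
      obtain ⟨h2, h3⟩ := hmem _ _ hlt hu h1
      rw [Finset.sum_eq_single (e % r)]
      · rw [if_pos (by rw [← h3, he]), mul_one, hDw _ hlt h2, ← h3, ← hPa _ _ hlt hu, he]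
      · intro j hj hne
        rw [if_neg, mul_zero]
        intro h4
        apply hne
        have h5 : (j + r * w j) % r = j := by
          rw [Nat.add_mul_mod_self_left, Nat.mod_eq_of_lt (hDr j hj)]
        rw [← h5, ← h4]
      · intro h4
        exact absurd h2 h4

end Pool.Agent.Helper96.AG
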